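import Pool.Agent.W960.HC.Defs

/-! Part HCM: the Melnikov function is differentiable; simple zeros for a suitable parameter. -/

open Set Topology Filter MeasureTheory

namespace Pool.Agent.W617.HC
open Pool.Agent.W960.HC

theorem kp_lt {x X : ℝ} (hx : 0 ≤ x) (h : x < X) : kp X < kp x := by
  unfold kp
  have h1 : (X ^ 2 - x ^ 2) + 1 < Real.exp (X ^ 2 - x ^ 2) := by
    apply Real.add_one_lt_exp
    nlinarith
  have h2 : Real.exp (-x ^ 2) = Real.exp (-X ^ 2) * Real.exp (X ^ 2 - x ^ 2) := by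
    rw [← Real.exp_add]; congr 1; ring
  rw [h2, mul_assoc]
  apply mul_lt_mul_of_pos_left _ (Real.exp_pos _)
  nlinarith [mul_lt_mul_of_pos_right h1 (show (0:ℝ) < 1 + x ^ 2 by positivity),
    mul_nonneg (sq_nonneg x) (show (0:ℝ) ≤ X ^ 2 - x ^ 2 by nlinarith)]

theorem kp_zero : kp 0 = 1 := by simp [kp]

theorem differentiableAt_et {X : ℝ} (hX : 0 < X) : DifferentiableAt ℝ et X := by
  have h1 : kp X < 1 := by
    have := kp_lt le_rfl hX
    rwa [kp_zero] at this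
  have hk : DifferentiableAt ℝ (fun X => 1 - kp X) X := by
    unfold kp
    fun_prop
  have : DifferentiableAt ℝ (fun X => Real.sqrt (1 - kp X)) X :=
    hk.sqrt (by linarith)
  exact this

theorem differentiableAt_Mel (hF : ∀ a c R : ℝ, ∃ Z W, Flw a c R Z W)
    (hH : ∀ {a c R X₀ : ℝ}, 0 < X₀ → 2 + X₀ < R →
      ∀ {Z : ℝ → ℝ × ℝ → ℝ → ℝ × ℝ} {W : ℝ → ℝ × ℝ → ℝ → ℝ}, Flw a c R Z W →
      ∃ τ δ, Half a c R X₀ Z W τ δ)
    (a c : ℝ) {X : ℝ} (hX : 0 < X) : DifferentiableAt ℝ (Mel a c) X := by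
  obtain ⟨Z, W, hfl⟩ := hF a c (3 + X)
  obtain ⟨τ, δ, hh⟩ := hH (a := a) (c := c) (R := 3 + X) (X₀ := X) hX (by linarith) hfl
  have hδ := hh.hδ
  have hW : Differentiable ℝ (fun q : ℝ × (ℝ × ℝ) × ℝ => W q.1 q.2.1 q.2.2) :=
    hfl.smW.differentiable (by norm_num)
  have hopen : IsOpen (Ioo (X - δ) (X + δ) ×ˢ Ioo (-δ) δ : Set (ℝ × ℝ)) :=
    isOpen_Ioo.prod isOpen_Ioo
  have hmem : ((X, (0:ℝ)) : ℝ × ℝ) ∈ (Ioo (X - δ) (X + δ) ×ˢ Ioo (-δ) δ : Set (ℝ × ℝ)) :=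
    ⟨⟨by linarith, by linarith⟩, ⟨by linarith, by linarith⟩⟩
  have hτ : DifferentiableAt ℝ τ (X, 0) :=
    (hh.smooth.contDiffAt (hopen.mem_nhds hmem)).differentiableAt (by norm_num)
  have hτ1 : DifferentiableAt ℝ (fun X' : ℝ => τ (X', 0)) X := by
    have h1 : DifferentiableAt ℝ (fun X' : ℝ => ((X', (0:ℝ)) : ℝ × ℝ)) X := by fun_prop
    exact DifferentiableAt.comp (g := τ) (f := fun X' : ℝ => ((X', (0:ℝ)) : ℝ × ℝ)) X hτ h1
  have het := differentiableAt_et hX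
  have hin : DifferentiableAt ℝ
      (fun X' : ℝ => ((τ (X', 0), ((0:ℝ), et X'), (0:ℝ)) : ℝ × (ℝ × ℝ) × ℝ)) X :=
    hτ1.prodMk (((differentiableAt_const _).prodMk het).prodMk (differentiableAt_const _))
  have hcomp : DifferentiableAt ℝ (fun X' : ℝ => W (τ (X', 0)) (0, et X') 0 / 2) X := by
    have := (hW _).comp X hin
    exact this.div_const 2
  refine hcomp.congr_of_eventuallyEq ?_
  have hnb : Ioo (X - δ) (X + δ) ∈ 𝓝 X := Ioo_mem_nhds (by linarith) (by linarith)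
  filter_upwards [hnb] with X' hX'
  rw [hh.mel X' hX']
  ring

theorem continuous_Y (κ : ℝ) : Continuous (fun x => Y κ x) := by
  unfold Y
  fun_prop

theorem Y_pos {x X : ℝ} (hx : 0 ≤ x) (h : x < X) : 0 < Y (kp X) x := by
  unfold Y
  apply Real.sqrt_pos.mpr
  have h1 := kp_lt hx h
  have h2 : 1 + x ^ 2 = kp x * Real.exp (x ^ 2) := by
    unfold kp
    rw [mul_comm (Real.exp (-x ^ 2)), mul_assoc, ← Real.exp_add]
    simp
  rw [h2]
  have := mul_lt_mul_of_pos_right h1 (Real.exp_pos (x ^ 2))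
  linarith

/-- the coefficient of `a` -/
noncomputable def I0 (X : ℝ) : ℝ := ∫ x in (0:ℝ)..X, Real.exp (-x ^ 2) * Y (kp X) x

theorem I0_pos {X : ℝ} (hX : 0 < X) : 0 < I0 X := by
  unfold I0
  apply intervalIntegral.intervalIntegral_pos_of_pos_on
  · apply Continuous.intervalIntegrable
    have := continuous_Y (kp X)
    fun_prop
  · intro x hx
    exact mul_pos (Real.exp_pos _) (Y_pos hx.1.le hx.2)
  · exact hX

theorem Mel_eq (a c X : ℝ) : Mel a c X = a * I0 X + Mel 0 c X := by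
  unfold Mel I0
  have hc := continuous_Y (kp X)
  rw [← intervalIntegral.integral_const_mul, ← intervalIntegral.integral_add]
  · apply intervalIntegral.integral_congr
    intro x _
    simp only
    ring
  · apply Continuous.intervalIntegrable
    fun_prop
  · apply Continuous.intervalIntegrable
    fun_prop

theorem exists_regular (hA : ∃ a c X1 X2 X3 X4 : ℝ, 0 < X1 ∧ X1 < X2 ∧ X2 < X3 ∧ X3 < X4 ∧
      0 < Mel a c X1 ∧ Mel a c X2 < 0 ∧ 0 < Mel a c X3 ∧ Mel a c X4 < 0)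
    (hM : ∀ (a c : ℝ) {X : ℝ}, 0 < X → DifferentiableAt ℝ (Mel a c) X) :
    ∃ a c x₁ x₂ x₃ m₁ m₂ m₃ : ℝ, 0 < x₁ ∧ x₁ < x₂ ∧ x₂ < x₃ ∧
    Mel a c x₁ = 0 ∧ Mel a c x₂ = 0 ∧ Mel a c x₃ = 0 ∧
    HasDerivAt (Mel a c) m₁ x₁ ∧ HasDerivAt (Mel a c) m₂ x₂ ∧ HasDerivAt (Mel a c) m₃ x₃ ∧
    m₁ ≠ 0 ∧ m₂ ≠ 0 ∧ m₃ ≠ 0 := by
  obtain ⟨a, c, X1, X2, X3, X4, h0, h12, h23, h34, s1, s2, s3, s4⟩ := hA
  have hI : ∀ X : ℝ, I0 X = Mel 1 c X - Mel 0 c X := by
    intro X; rw [Mel_eq 1 c X]; ring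
  have hId : ∀ {X : ℝ}, 0 < X → DifferentiableAt ℝ I0 X := by
    intro X hX
    have : I0 = fun X => Mel 1 c X - Mel 0 c X := funext hI
    rw [this]
    exact (hM 1 c hX).sub (hM 0 c hX)
  set φ : ℝ → ℝ := fun X => -Mel 0 c X / I0 X with hφ
  have hφd : ∀ {X : ℝ}, 0 < X → DifferentiableAt ℝ φ X := by
    intro X hX
    exact (hM 0 c hX).neg.div (hId hX) (I0_pos hX).ne'
  set S : Set ℝ := {x | 0 < x ∧ deriv φ x = 0} with hS
  have hnull : volume (φ '' S) = 0 := by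
    apply MeasureTheory.addHaar_image_eq_zero_of_det_fderivWithin_eq_zero volume
      (f' := fun x => ContinuousLinearMap.toSpanSingleton ℝ (deriv φ x))
    · intro x hx
      have := (hφd hx.1).hasDerivAt
      exact this.hasFDerivAt.hasFDerivWithinAt
    · intro x hx
      have hx2 : deriv φ x = 0 := hx.2
      simp [hx2]
  -- the open set of parameters with the sign pattern
  set U : Set ℝ := {b | 0 < b * I0 X1 + Mel 0 c X1 ∧ b * I0 X2 + Mel 0 c X2 < 0 ∧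
    0 < b * I0 X3 + Mel 0 c X3 ∧ b * I0 X4 + Mel 0 c X4 < 0} with hU
  have hlin : ∀ u v : ℝ, Continuous (fun b : ℝ => b * u + v) := by
    intro u v
    fun_prop
  have hUo : IsOpen U := by
    have o1 : IsOpen {b : ℝ | 0 < b * I0 X1 + Mel 0 c X1} :=
      isOpen_lt continuous_const (hlin _ _)
    have o2 : IsOpen {b : ℝ | b * I0 X2 + Mel 0 c X2 < 0} :=
      isOpen_lt (hlin _ _) continuous_const
    have o3 : IsOpen {b : ℝ | 0 < b * I0 X3 + Mel 0 c X3} :=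
      isOpen_lt continuous_const (hlin _ _)
    have o4 : IsOpen {b : ℝ | b * I0 X4 + Mel 0 c X4 < 0} :=
      isOpen_lt (hlin _ _) continuous_const
    exact o1.inter (o2.inter (o3.inter o4))
  have haU : a ∈ U := by
    refine ⟨?_, ?_, ?_, ?_⟩
    · rw [← Mel_eq]; exact s1
    · rw [← Mel_eq]; exact s2
    · rw [← Mel_eq]; exact s3
    · rw [← Mel_eq]; exact s4
  have hUpos : 0 < volume U := hUo.measure_pos volume ⟨a, haU⟩
  have hnot : ¬ U ⊆ φ '' S := by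
    intro hsub
    have := measure_mono_null hsub hnull
    exact hUpos.ne' this
  obtain ⟨b, hbU, hbS⟩ := not_subset.mp hnot
  obtain ⟨t1, t2, t3, t4⟩ := hbU
  rw [← Mel_eq] at t1 t2 t3 t4
  have hcont : ∀ u v : ℝ, 0 < u → ContinuousOn (Mel b c) (Icc u v) := by
    intro u v hu x hx
    exact (hM b c (lt_of_lt_of_le hu hx.1)).continuousAt.continuousWithinAt
  -- key: at a zero, the derivative is nonzero
  have key : ∀ x : ℝ, 0 < x → Mel b c x = 0 → ∃ m : ℝ, HasDerivAt (Mel b c) m x ∧ m ≠ 0 := by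
    intro x hx hz
    have hIx := I0_pos hx
    have hφx : φ x = b := by
      rw [Mel_eq] at hz
      simp only [hφ]
      rw [div_eq_iff hIx.ne']
      linarith
    have hd : deriv φ x ≠ 0 := by
      intro h0'
      exact hbS ⟨x, ⟨hx, h0'⟩, hφx⟩
    refine ⟨-(I0 x * deriv φ x), ?_, ?_⟩
    · have h1 := (hφd hx).hasDerivAt
      have h2 := (hId hx).hasDerivAt
      have h3 : HasDerivAt (fun X => I0 X * (b - φ X))
          (deriv I0 x * (b - φ x) + I0 x * (0 - deriv φ x)) x :=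
        h2.mul ((hasDerivAt_const x b).sub h1)
      have h4 : HasDerivAt (Mel b c) (deriv I0 x * (b - φ x) + I0 x * (0 - deriv φ x)) x := by
        refine h3.congr_of_eventuallyEq ?_
        filter_upwards [lt_mem_nhds hx] with X hX
        have hIX := I0_pos hX
        rw [Mel_eq]
        simp only [hφ]
        field_simp
        ring
      convert h4 using 1
      rw [hφx]; ring
    · exact neg_ne_zero.mpr (mul_ne_zero hIx.ne' hd)
  have hX2 : 0 < X2 := h0.trans h12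
  have hX3 : 0 < X3 := hX2.trans h23
  -- zeros
  obtain ⟨x1, hx1, hz1⟩ : ∃ x ∈ Icc X1 X2, Mel b c x = 0 := by
    have := intermediate_value_Icc' h12.le (hcont X1 X2 h0)
    exact this ⟨t2.le, t1.le⟩
  obtain ⟨x2, hx2, hz2⟩ : ∃ x ∈ Icc X2 X3, Mel b c x = 0 := by
    have := intermediate_value_Icc h23.le (hcont X2 X3 hX2)
    exact this ⟨t2.le, t3.le⟩
  obtain ⟨x3, hx3, hz3⟩ : ∃ x ∈ Icc X3 X4, Mel b c x = 0 := by
    have := intermediate_value_Icc' h34.le (hcont X3 X4 hX3)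
    exact this ⟨t4.le, t3.le⟩
  have e1 : x1 < X2 := by
    rcases lt_or_eq_of_le hx1.2 with h | h
    · exact h
    · exfalso; rw [h] at hz1; linarith
  have e2 : x2 < X3 := by
    rcases lt_or_eq_of_le hx2.2 with h | h
    · exact h
    · exfalso; rw [h] at hz2; linarith
  have p1 : 0 < x1 := lt_of_lt_of_le h0 hx1.1
  have p2 : 0 < x2 := lt_of_lt_of_le hX2 hx2.1
  have p3 : 0 < x3 := lt_of_lt_of_le hX3 hx3.1
  obtain ⟨m1, hm1, n1⟩ := key x1 p1 hz1
  obtain ⟨m2, hm2, n2⟩ := key x2 p2 hz2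
  obtain ⟨m3, hm3, n3⟩ := key x3 p3 hz3
  exact ⟨b, c, x1, x2, x3, m1, m2, m3, p1, lt_of_lt_of_le e1 hx2.1, lt_of_lt_of_le e2 hx3.1,
    hz1, hz2, hz3, hm1, hm2, hm3, n1, n2, n3⟩

end Pool.Agent.W617.HC
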